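import Mathlib
import Pool.Agent.H64.KK.Final

set_option autoImplicit false

/-!
# Kakeya-type sets all but one of whose position entries are regular

A family of lines in `ℝ^n`, `n = m + 2 ≥ 2`, with directions `(1, v)`, `v ∈ ℝ^(n-1)`, is given by a
map `a : ℝ^(n-1) → ℝ^(n-1)`: the line `ℓ_v` passes through `(0, a v)`.  We write `v = (s, w)` with
`s ∈ ℝ^m` and `w ∈ ℝ`.
-/

open MeasureTheory Set Metric

namespace Pool.Agent.Results.MP_b1773a_an.OneRoughEntry

/-- Euclidean space `ℝ^n`. -/
abbrev E (n : ℕ) : Type := EuclideanSpace ℝ (Fin n)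

/-- The vector `(s, w) ∈ ℝ^(m+1)`. -/
noncomputable def glue {m : ℕ} (s : E m) (w : ℝ) : E (m + 1) :=
  WithLp.toLp 2 (Fin.snoc (α := fun _ => ℝ) (fun i => s i) w)

/-- The point at height `t` of the line `ℓ_v` of `ℝ^(n+1)` through `(0, a v)` with direction
`(1, v)`, that is `(t, a v + t v)`. -/
noncomputable def linePt {n : ℕ} (a : E n → E n) (v : E n) (t : ℝ) : E (n + 1) :=
  WithLp.toLp 2 (Fin.cons t (fun i => a v i + t * v i))

/-- `K ⊆ ℝ^n` has Hausdorff dimension `n`, and every cover of `K` by balls of radius `2^(-j)` has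
at least `c 2^(j n) / (j + 1)` members, with `c > 0` independent of `j`. -/
def FullSize (n : ℕ) (K : Set (E n)) : Prop :=
  dimH K = n ∧ ∃ c : ℝ, 0 < c ∧ ∀ (j : ℕ) (F : Finset (E n)),
    K ⊆ ⋃ x ∈ F, closedBall x ((1 / 2) ^ j) → c * (2 ^ j) ^ n / (j + 1) ≤ F.card

theorem fullSize_of_big {n : ℕ} {K : Set (E n)} (h : H64.KK.Big n K) : FullSize n K := by
  refine ⟨le_antisymm ?_ h.1, h.2⟩
  calc dimH K ≤ dimH (univ : Set (E n)) := dimH_mono (subset_univ _)
    _ = n := by rw [Real.dimH_univ_eq_finrank]; simp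

/-- **Theorem.** In all dimensions `n = m + 2`, Kakeya-type sets have full size as soon as all
entries of the direction-to-position map but the last are regular, and the last one is regular
in the variables `s`; nothing is assumed on its dependence on `w`. -/
theorem result :
    -- (1) pointwise version
    (∀ (m : ℕ) (a : E (m + 1) → E (m + 1)) (K : Set (E (m + 2))) (W : Set ℝ),
      0 < volume W →
      (∀ w ∈ W, 0 < volume {z : E m × ℝ |
        (∀ i : Fin m, DifferentiableAt ℝ (fun v => a v i.castSucc) (glue z.1 w)) ∧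
        DifferentiableAt ℝ (fun s => a (glue s w) (Fin.last m)) z.1 ∧
        linePt a (glue z.1 w) z.2 ∈ K}) →
      FullSize (m + 2) K) ∧
    -- (2) Lipschitz version
    (∀ (m : ℕ) (a : E (m + 1) → E (m + 1)) (U D : Set (E (m + 1))), IsOpen U →
      (∀ i : Fin m, LocallyLipschitzOn U (fun v => a v i.castSucc)) →
      (∀ w : ℝ, LocallyLipschitzOn {s : E m | glue s w ∈ U}
        (fun s => a (glue s w) (Fin.last m))) →
      MeasurableSet D → D ⊆ U → 0 < volume D →
      ∀ K : Set (E (m + 2)),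
        (∀ v ∈ D, ∃ α β : ℝ, α < β ∧ ∀ t ∈ Ioo α β, linePt a v t ∈ K) →
        FullSize (m + 2) K) := by
  refine ⟨?_, ?_⟩
  · intro m a K W hW hK
    exact fullSize_of_big (H64.KK.main1 a K W hW hK)
  · intro m a U D hU h1 h2 hDm hDU hD K hK
    exact fullSize_of_big (H64.KK.main2 U hU a h1 h2 D hDm hDU hD K hK)

end Pool.Agent.Results.MP_b1773a_an.OneRoughEntry
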